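import Pool.Agent.Lib_MP_4d7355_co.GraphBounds

/-!
# MP_4d7355_co: the product inequality with the square of the golden ratio
-/

namespace Pool.Agent.MW.Old.GoldenSquare

open Pool.Agent.MW

/-- Let `G` be a finite multigraph without loops and bridges. For every real `b` that is at least
the square `(3 + √5) / 2` of the golden ratio,
`T(G; 1, 1) ^ 2 ≤ T(G; √b, 1) * T(G; 1, √b) ≤ T(G; b, 0) * T(G; 0, b)`. -/
theorem result :
    ∀ (n m : ℕ) (e : Fin m → Fin n × Fin n) (c : Finset (Fin m) → ℕ) (T : ℝ → ℝ → ℝ),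
      (∀ A : Finset (Fin m),
        c A = Nat.card (SimpleGraph.fromRel (fun a b : Fin n => ∃ j ∈ A, e j = (a, b))).ConnectedComponent) →
      (∀ x y : ℝ, T x y = ∑ A ∈ (Finset.univ : Finset (Fin m)).powerset,
        (x - 1) ^ ((n - c Finset.univ) - (n - c A)) * (y - 1) ^ (A.card - (n - c A))) →
      (∀ i : Fin m, (e i).1 ≠ (e i).2) →
      (∀ i : Fin m, c (Finset.univ.erase i) = c Finset.univ) →
      ∀ b : ℝ, (3 + √5) / 2 ≤ b →
        T 1 1 ^ 2 ≤ T (√b) 1 * T 1 (√b) ∧ T (√b) 1 * T 1 (√b) ≤ T b 0 * T 0 b := by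
  intro n m e c T hc hT hl hbr b hb
  have hT' := T_real e c T hc hT
  rw [hT', hT', hT', hT', hT']
  have h5 : √5 ^ 2 = 5 := Real.sq_sqrt (by norm_num)
  have h50 : 0 ≤ √5 := Real.sqrt_nonneg 5
  have hb1 : 1 < b := by linarith
  have hb0 : 0 ≤ b := by linarith
  set s := √b with hs
  have hs2 : s ^ 2 = b := Real.sq_sqrt hb0
  have hs0 : 0 ≤ s := Real.sqrt_nonneg b
  have hs1 : (1 + √5) / 2 ≤ s := by
    by_contra hneg
    push Not at hneg
    nlinarith
  have hs3 : 1 + s ≤ b := by nlinarith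
  have hsone : 1 ≤ s := by nlinarith
  have a1 := loopless_bound (grank e) (fun i => grank_single e (hl i)) hb1
  have a2 := loopless_bound (grank e).dual (dual_single e c hc hbr) hb1
  rw [TT_dual, TT_dual, RankFn.dual_r_univ] at a2
  rw [← hs] at a1 a2
  have h6 : (grank e).r Finset.univ ≤ Fintype.card (Fin m) := by
    have := (grank e).le_card Finset.univ
    rwa [Finset.card_univ] at this
  set r := (grank e).r Finset.univ with hr
  set M := Fintype.card (Fin m) with hM
  have n1 : 0 ≤ TT (grank e) s 1 := TT_one_nonneg _ hsone le_rfl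
  have n2 : 0 ≤ TT (grank e) 1 s := TT_one_nonneg _ le_rfl hsone
  have n3 : 0 ≤ TT (grank e) 1 1 := TT_one_nonneg _ le_rfl le_rfl
  have n4 : 0 ≤ TT (grank e) b 0 := TT_nonneg _ hb1.le
  have n5 : 0 ≤ TT (grank e) 0 b := by
    rw [← TT_dual]
    exact TT_nonneg _ hb1.le
  have m1 : TT (grank e) 1 1 ≤ TT (grank e) s 1 := TT_one_le _ hsone
  have m2 : TT (grank e) 1 1 ≤ TT (grank e) 1 s := by
    rw [← TT_dual, ← TT_dual (grank e)]
    exact TT_one_le _ hsone
  constructor
  · calc TT (grank e) 1 1 ^ 2 = TT (grank e) 1 1 * TT (grank e) 1 1 := by ring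
      _ ≤ TT (grank e) s 1 * TT (grank e) 1 s := mul_le_mul m1 m2 n3 n1
  · have hspos : 0 < s := by linarith
    have h7 : (1 + s) ^ M ≤ b ^ M := pow_le_pow_left₀ (by linarith) hs3 _
    have h8 : (s ^ M * TT (grank e) s 1) * (s ^ M * TT (grank e) 1 s) ≤
        ((1 + s) ^ (M - r) * TT (grank e) b 0) * ((1 + s) ^ (M - (M - r)) * TT (grank e) 0 b) :=
      mul_le_mul a1 a2 (by positivity) (by positivity)
    have h9 : ((1 + s) ^ (M - r) * TT (grank e) b 0) * ((1 + s) ^ (M - (M - r)) * TT (grank e) 0 b)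
        = (1 + s) ^ M * (TT (grank e) b 0 * TT (grank e) 0 b) := by
      have e1 : M - (M - r) = r := by omega
      rw [e1]
      have e2 : (1 + s) ^ M = (1 + s) ^ (M - r) * (1 + s) ^ r := by
        rw [← pow_add]
        congr 1
        omega
      rw [e2]
      ring
    have h10 : (s ^ M * TT (grank e) s 1) * (s ^ M * TT (grank e) 1 s) =
        b ^ M * (TT (grank e) s 1 * TT (grank e) 1 s) := by
      rw [← hs2, ← pow_mul, two_mul, pow_add]
      ring
    rw [h9, h10] at h8
    have h11 : (1 + s) ^ M * (TT (grank e) b 0 * TT (grank e) 0 b) ≤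
        b ^ M * (TT (grank e) b 0 * TT (grank e) 0 b) :=
      mul_le_mul_of_nonneg_right h7 (by positivity)
    have h12 := h8.trans h11
    have h13 : 0 < b ^ M := by positivity
    exact le_of_mul_le_mul_left h12 h13

end Pool.Agent.MW.Old.GoldenSquare
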