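import Pool.Agent.Lib_MP_4d7355_co.GraphBounds

/-!
# MP_4d7355_co: the product inequality for simple graphs without 2-edge cuts
-/

namespace Pool.Agent.MW.Old.SimpleConstant

open Pool.Agent.MW

/-- Let `G` be a finite simple graph without bridges and without 2-edge cuts, and let `p` be the
real number with `p ^ 3 = p + 1` (the plastic number `1.3247...`). For every real
`b ≥ p ^ 3 = 2.3247...`,
`T(G; 1, 1) ^ 2 ≤ T(G; p ^ 2, 1) * T(G; 1, p ^ 2) ≤ T(G; b, 0) * T(G; 0, b)`. -/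
theorem result :
    ∀ (n m : ℕ) (e : Fin m → Fin n × Fin n) (c : Finset (Fin m) → ℕ) (T : ℝ → ℝ → ℝ),
      (∀ A : Finset (Fin m),
        c A = Nat.card (SimpleGraph.fromRel (fun a b : Fin n => ∃ j ∈ A, e j = (a, b))).ConnectedComponent) →
      (∀ x y : ℝ, T x y = ∑ A ∈ (Finset.univ : Finset (Fin m)).powerset,
        (x - 1) ^ ((n - c Finset.univ) - (n - c A)) * (y - 1) ^ (A.card - (n - c A))) →
      (∀ i : Fin m, (e i).1 ≠ (e i).2) →
      (∀ i j : Fin m, i ≠ j → e i ≠ e j ∧ e i ≠ (e j).swap) →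
      (∀ i j : Fin m, c ((Finset.univ.erase i).erase j) = c Finset.univ) →
      ∀ p : ℝ, p ^ 3 = p + 1 → ∀ b : ℝ, p ^ 3 ≤ b →
        T 1 1 ^ 2 ≤ T (p ^ 2) 1 * T 1 (p ^ 2) ∧ T (p ^ 2) 1 * T 1 (p ^ 2) ≤ T b 0 * T 0 b := by
  intro n m e c T hc hT hl hs hb p hp b hpb
  have hT' := T_real e c T hc hT
  rw [hT', hT', hT', hT', hT']
  have hp0 : 1 < p := by
    by_contra hneg
    push Not at hneg
    have h0 : p * (p ^ 2 - 1) = 1 := by linear_combination hp
    rcases le_or_gt 0 p with h1 | h1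
    · have h2 : p * (p ^ 2 - 1) ≤ 0 :=
        mul_nonpos_of_nonneg_of_nonpos h1 (by nlinarith)
      linarith
    · rcases le_or_gt p (-1) with h2 | h2
      · have h3 : p * (p ^ 2 - 1) ≤ 0 :=
          mul_nonpos_of_nonpos_of_nonneg h1.le (by nlinarith)
        linarith
      · have h3 : 0 < (1 + p) := by linarith
        have h4 : p * (p ^ 2 - 1) = (-p) * (1 - p ^ 2) := by ring
        have h5 : 0 < p ^ 2 := by nlinarith
        have h6 : (-p) * (1 - p ^ 2) ≤ 1 * (1 - p ^ 2) :=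
          mul_le_mul_of_nonneg_right (by linarith) (by nlinarith)
        linarith
  have hb1 : ∀ i : Fin m, c (Finset.univ.erase i) = c Finset.univ := by
    intro i
    have := hb i i
    rwa [Finset.erase_idem] at this
  have a1 := simple_bound_plastic (grank e) (fun i => grank_single e (hl i))
      (fun i j hij => grank_pair e (hl i) (hl j) (hs i j hij).1 (hs i j hij).2)
      (by linarith : 0 < p) hp
  have a2 := simple_bound_plastic (grank e).dual (dual_single e c hc hb1) (dual_pair e c hc hb)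
      (by linarith : 0 < p) hp
  rw [TT_dual, TT_dual, RankFn.dual_r_univ] at a2
  have h6 : (grank e).r Finset.univ ≤ Fintype.card (Fin m) := by
    have := (grank e).le_card Finset.univ
    rwa [Finset.card_univ] at this
  set r := (grank e).r Finset.univ with hr
  set M := Fintype.card (Fin m) with hM
  have e1 : M - (M - r) = r := by omega
  rw [e1] at a2
  have hq : 1 ≤ p ^ 2 := by nlinarith
  have hp3 : 1 ≤ p ^ 3 := by rw [hp]; linarith
  have n1 : 0 ≤ TT (grank e) (p ^ 2) 1 := TT_one_nonneg _ hq le_rfl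
  have n2 : 0 ≤ TT (grank e) 1 (p ^ 2) := TT_one_nonneg _ le_rfl hq
  have n3 : 0 ≤ TT (grank e) 1 1 := TT_one_nonneg _ le_rfl le_rfl
  have n4 : 0 ≤ TT (grank e) (p ^ 3) 0 := TT_nonneg _ hp3
  have n5 : 0 ≤ TT (grank e) 0 (p ^ 3) := by
    rw [← TT_dual]
    exact TT_nonneg _ hp3
  have n6 : 0 ≤ TT (grank e) b 0 := TT_nonneg _ (hp3.trans hpb)
  have m1 : TT (grank e) 1 1 ≤ TT (grank e) (p ^ 2) 1 := TT_one_le _ hq
  have m2 : TT (grank e) 1 1 ≤ TT (grank e) 1 (p ^ 2) := by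
    rw [← TT_dual, ← TT_dual (grank e)]
    exact TT_one_le _ hq
  have m3 : TT (grank e) (p ^ 3) 0 ≤ TT (grank e) b 0 := TT_mono _ hp3 hpb
  have m4 : TT (grank e) 0 (p ^ 3) ≤ TT (grank e) 0 b := by
    rw [← TT_dual, ← TT_dual (grank e)]
    exact TT_mono _ hp3 hpb
  constructor
  · calc TT (grank e) 1 1 ^ 2 = TT (grank e) 1 1 * TT (grank e) 1 1 := by ring
      _ ≤ TT (grank e) (p ^ 2) 1 * TT (grank e) 1 (p ^ 2) := mul_le_mul m1 m2 n3 n1
  · have hpp : 0 < p := by linarith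
    have h8 : (p ^ r * TT (grank e) (p ^ 2) 1) * (p ^ (M - r) * TT (grank e) 1 (p ^ 2)) ≤
        (p ^ (M - r) * TT (grank e) (p ^ 3) 0) * (p ^ r * TT (grank e) 0 (p ^ 3)) :=
      mul_le_mul a1 a2 (by positivity) (by positivity)
    have h9 : (p ^ r * p ^ (M - r)) * (TT (grank e) (p ^ 2) 1 * TT (grank e) 1 (p ^ 2)) ≤
        (p ^ r * p ^ (M - r)) * (TT (grank e) (p ^ 3) 0 * TT (grank e) 0 (p ^ 3)) := by
      calc (p ^ r * p ^ (M - r)) * (TT (grank e) (p ^ 2) 1 * TT (grank e) 1 (p ^ 2))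
          = (p ^ r * TT (grank e) (p ^ 2) 1) * (p ^ (M - r) * TT (grank e) 1 (p ^ 2)) := by ring
        _ ≤ (p ^ (M - r) * TT (grank e) (p ^ 3) 0) * (p ^ r * TT (grank e) 0 (p ^ 3)) := h8
        _ = (p ^ r * p ^ (M - r)) * (TT (grank e) (p ^ 3) 0 * TT (grank e) 0 (p ^ 3)) := by ring
    have h10 := le_of_mul_le_mul_left h9 (by positivity)
    exact h10.trans (mul_le_mul m3 m4 n5 n6)

end Pool.Agent.MW.Old.SimpleConstant
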